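import Pool.Agent.Lib.MP_862e0f_al.Mg.G003
import Pool.Agent.Lib.MP_862e0f_al.Mg.G005
import Pool.Agent.Lib.MP_862e0f_al.Mg.G006

/-!
# The counterexample among Fréchet-Lie groups
-/

set_option autoImplicit false

namespace Pool.Agent.Lib.MP_862e0f_al.EW

open Filter Topology Set

universe w

variable (G : Gear triT) {W : ℕ → ℕ → ℝ}

theorem cont_sq (hW : ∀ k n, 0 < W k n) (n : ℕ) : Continuous (fun g : MM triT W => sq G g n) := by
  have h1 : ∀ a, Continuous (fun g : MM triT W => vs G W (yv g.2) a) := fun a =>
    Continuous.comp (g := fun y : KF triT W => vs G W (yv y) a) (cont_vs G hW a)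
      (continuous_snd : Continuous (Prod.snd : MM triT W → KF triT W))
  have h2 : ∀ a, Continuous (fun g : MM triT W => tq g.1.c a • triT.e a) := fun a => by
    have h3 : Continuous (fun g : MM triT W => g.1.c a) :=
      Continuous.comp (g := fun g : C0 => g.c a) (cont_C0 a)
        (continuous_fst : Continuous (Prod.fst : MM triT W → C0))
    exact (continuous_const.mul h3).smul continuous_const
  have h4 : ∀ a, Continuous (fun g : MM triT W => vs G W (yv g.2) a + tq g.1.c a • triT.e a) :=
    fun a => (h1 a).add (h2 a)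
  exact continuous_finset_sum (Finset.range (n + 1)) fun a _ => h4 a

theorem good_LG (hW : ∀ k n, 0 < W k n) (hG : ∀ k m, k ≤ m → Grow G k m W) :
    Good (LG G hW hG).carrier (sq G (W := W)) where
  mem h n := sq_mem G h n
  mul g h n := sq_mul G hW hG g h n
  inj g h hh := sq_inj G hW hG hh
  loc h := by
    have e : (fun g : MM triT W => triT.vv (sq G g)) = fun g => vs G W (yv g.2) :=
      funext fun g => vv_sq G g
    have h1 : LC triT (fun g : MM triT W => vs G W (yv g.2)) h :=
      LC.comp (f := fun g : MM triT W => g.2) (LC_vs G hW _) continuous_snd.continuousAt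
    rw [← e] at h1
    exact h1
  null h := by
    have e : gt triT (sq G h) = (h : MM triT W).1.c := by
      funext n
      unfold gt
      rw [tau_sq]
      unfold tq
      field_simp
    rw [e]
    exact C0_null _
  cont h n := (cont_sq G hW n).continuousAt
  near U hU := by
    have h1 : (1 : (LG G hW hG).carrier) = (0 : MM triT W) := grp_one_eq G hW hG
    rw [h1] at hU
    obtain ⟨k, c, ε, hc, hε, h⟩ := near G hW hG (U := U) hU
    refine ⟨k, c, ε, hc, hε, ?_⟩
    filter_upwards [h] with n hn x hx a1 a2 a3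
    exact ⟨io G hW hG n hx, hn x hx a1 a2 a3, sq_io G hW hG n hx⟩
  trans := ⟨tr, continuous_tr, fun g n => sq_tr G g n⟩
  start n x hx := ⟨io G hW hG n (T := triT) hx, sq_io G hW hG n hx⟩

theorem disc_frechet (Γ : Type) [Group Γ] : (EV.discGrp Γ).IsFrechet := by
  refine ⟨(inferInstance : TopologicalSpace.MetrizableSpace EV.Zero0), ?_⟩
  intro (a : ℕ → EV.Zero0) _
  exact ⟨(0 : EV.Zero0), tendsto_const_nhds.congr fun n => Subsingleton.elim (α := EV.Zero0) _ _⟩

/-- The counterexample: `H` is a Fréchet-Lie group of sequences in the triangular polynomial group,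
`G` a countable dense subgroup of the stabilizer of the point `0`, with the discrete topology. -/
theorem main : ∃ (G H : LieGrp.{0, 0}) (f : G.carrier →* H.carrier),
    G.IsFrechet ∧ H.IsFrechet ∧
    Countable G.carrier ∧ DiscreteTopology G.carrier ∧ SecondCountableTopology H.carrier ∧
    SecondCountableTopology H.model ∧ ContractibleSpace H.carrier ∧ IsMorphism G H f ∧
    (∀ (K : Type w) [Group K] [TopologicalSpace K] [IsTopologicalGroup K] [T2Space K]
      (g₁ g₂ : H.carrier →* K), Continuous g₁ → Continuous g₂ → g₁.comp f = g₂.comp f → g₁ = g₂) ∧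
    ¬ DenseRange f := by
  obtain ⟨G₀⟩ := exists_gear triT
  obtain ⟨W, hW, -, hG⟩ := exists_weights G₀
  have hsc : SecondCountableTopology (MM triT W) := MM_second hW
  have hH := good_LG G₀ hW hG
  have hsc' : SecondCountableTopology (LG G₀ hW hG).carrier := hsc
  have hsc2 : SecondCountableTopology hH.stab :=
    TopologicalSpace.Subtype.secondCountableTopology (hH.stab : Set (LG G₀ hW hG).carrier)
  obtain ⟨D, hDc, hDd⟩ := TopologicalSpace.exists_countable_dense hH.stab
  set S : Subgroup (LG G₀ hW hG).carrier := Subgroup.closure ((↑) '' D) with hS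
  have hSL : S ≤ hH.stab := by
    rw [hS, Subgroup.closure_le]
    rintro _ ⟨x, -, rfl⟩
    exact x.2
  have hdense : (hH.stab : Set (LG G₀ hW hG).carrier) ⊆ closure (S : Set (LG G₀ hW hG).carrier) := by
    intro x hx
    have h1 : (⟨x, hx⟩ : hH.stab) ∈ closure D := hDd _
    have h2 : x ∈ closure ((↑) '' D : Set (LG G₀ hW hG).carrier) :=
      image_closure_subset_closure_image (continuous_subtype_val (p := fun y => y ∈ hH.stab))
        ⟨_, h1, rfl⟩
    exact closure_mono Subgroup.subset_closure h2
  have hcs : ContractibleSpace (MM triT W) := RealTopologicalVectorSpace.contractibleSpace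
  refine ⟨EV.discGrp S, LG G₀ hW hG, S.subtype, disc_frechet S, LG_frechet G₀ hW hG, ?_,
    EV.discGrp_discrete S, hsc, hsc, hcs, EV.disc_morphism _ _, ?_, ?_⟩
  · exact EV.countable_closure (hDc.image _)
  · intro K _ _ _ _ g₁ g₂ h₁ h₂ h
    refine hH.epi h₁ h₂ fun x hx => ?_
    have h3 : EqOn g₁ g₂ (S : Set (LG G₀ hW hG).carrier) := fun y hy =>
      DFunLike.congr_fun h (⟨y, hy⟩ : S)
    exact (h3.closure h₁ h₂) (hdense hx)
  · intro h
    obtain ⟨t, ht⟩ := hH.ne_top
    have h1 : closure (range (S.subtype : S → (LG G₀ hW hG).carrier)) ⊆ hH.stab :=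
      closure_minimal (by rintro _ ⟨y, rfl⟩; exact hSL y.2) hH.closed
    exact ht (h1 (h t))

end Pool.Agent.Lib.MP_862e0f_al.EW
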